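import Pool.Agent.H98.SLN.Targets

/-!
# Row KRB of the board SLN: the inter-arrival law on the scale of the cells, `α = 1`
-/

set_option autoImplicit false

open MeasureTheory ProbabilityTheory Filter Topology
open scoped ENNReal
open Pool.Agent.H95 Pool.Agent.H95.Cop
open Pool.Agent.H98.SLN

namespace Pool.Agent.H57.SLN

/-- bounds for the masses -/
theorem krb_kk (K : PMF ℕ) (c : ℝ) (hc : 0 < c)
    (h : Tendsto (fun n : ℕ => (K n).toReal * (n : ℝ) ^ (1 + (1 : ℝ))) atTop (𝓝 c)) :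
    ∃ n0 : ℕ, 2 ≤ n0 ∧ ∀ n, n0 ≤ n →
      3 / 4 * c ≤ kk K n * (n : ℝ) ^ 2 ∧ kk K n * (n : ℝ) ^ 2 ≤ 5 / 4 * c := by
  have h1 := h.eventually (Ioo_mem_nhds (by linarith : 3 / 4 * c < c)
    (by linarith : c < 5 / 4 * c))
  obtain ⟨N, hN⟩ := eventually_atTop.mp h1
  refine ⟨max N 2, le_max_right _ _, fun n hn => ?_⟩
  have h2 := hN n (le_trans (le_max_left _ _) hn)
  have e : (n : ℝ) ^ (1 + (1 : ℝ)) = (n : ℝ) ^ 2 := by
    rw [← Real.rpow_natCast]; norm_num
  rw [e] at h2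
  exact ⟨h2.1.le, h2.2.le⟩

/-- the tail tends to `0` -/
theorem krb_tail0 (K : PMF ℕ) (n0 : ℕ) :
    Tendsto (fun k : ℕ => tailK K (n0 + k + 1)) atTop (𝓝 0) := by
  have h := (kk_hasSum K).tendsto_sum_nat
  have h1 : Tendsto (fun n : ℕ => tailK K n) atTop (𝓝 (1 - 1)) := by
    unfold tailK
    exact tendsto_const_nhds.sub h
  rw [sub_self] at h1
  have h2 : Tendsto (fun k : ℕ => n0 + k + 1) atTop atTop :=
    tendsto_atTop_mono (fun k => by simp only [id_eq]; omega) tendsto_id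
  exact h1.comp h2

/-- upper bound for the tail -/
theorem krb_up (K : PMF ℕ) (c : ℝ) (hc : 0 < c) (n0 : ℕ) (hn0 : 2 ≤ n0)
    (h : ∀ n, n0 ≤ n → kk K n * (n : ℝ) ^ 2 ≤ 5 / 4 * c) (n : ℕ) (hn : n0 ≤ n) :
    tailK K (n + 1) ≤ 5 / 4 * c / n := by
  have hmono : Monotone fun k : ℕ => tailK K (n + k + 1) - 5 / 4 * c / ((n + k : ℕ) : ℝ) := by
    apply monotone_nat_of_le_succ
    intro k
    have hs := tailK_succ K (n + k + 1)
    have hp : (0 : ℝ) < ((n + k : ℕ) : ℝ) := by
      have : 0 < n + k := by omega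
      exact_mod_cast this
    have hk := h (n + k + 1) (by omega)
    have e1 : n + (k + 1) + 1 = n + k + 1 + 1 := by ring
    rw [e1, hs]
    have e2 : ((n + (k + 1) : ℕ) : ℝ) = ((n + k : ℕ) : ℝ) + 1 := by push_cast; ring
    have e3 : ((n + k + 1 : ℕ) : ℝ) = ((n + k : ℕ) : ℝ) + 1 := by push_cast; ring
    rw [e2]
    rw [e3] at hk
    set m : ℝ := ((n + k : ℕ) : ℝ) with hm
    have h1 : kk K (n + k + 1) ≤ 5 / 4 * c / (m + 1) ^ 2 := by
      rw [le_div_iff₀ (by positivity)]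
      exact hk
    have h2 : 5 / 4 * c / (m + 1) ^ 2 ≤ 5 / 4 * c / m - 5 / 4 * c / (m + 1) := by
      have e4 : 5 / 4 * c / m - 5 / 4 * c / (m + 1) = 5 / 4 * c / (m * (m + 1)) := by
        field_simp
        ring
      rw [e4]
      apply div_le_div_of_nonneg_left (by positivity) (by positivity)
      nlinarith
    linarith
  have hlim : Tendsto (fun k : ℕ => tailK K (n + k + 1) - 5 / 4 * c / ((n + k : ℕ) : ℝ)) atTop
      (𝓝 (0 - 0)) := by
    refine (krb_tail0 K n).sub ?_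
    have h2 : Tendsto (fun k : ℕ => n + k) atTop atTop :=
      tendsto_atTop_mono (fun k => by simp only [id_eq]; omega) tendsto_id
    exact (tendsto_const_div_atTop_nhds_zero_nat (5 / 4 * c)).comp h2
  have h3 := hmono.ge_of_tendsto hlim 0
  simp only [add_zero, sub_zero] at h3
  linarith

/-- lower bound for the tail -/
theorem krb_lo (K : PMF ℕ) (c : ℝ) (hc : 0 < c) (n0 : ℕ) (hn0 : 2 ≤ n0)
    (h : ∀ n, n0 ≤ n → 3 / 4 * c ≤ kk K n * (n : ℝ) ^ 2) (n : ℕ) (hn : n0 ≤ n) :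
    3 / 4 * c / ((n : ℝ) + 1) ≤ tailK K (n + 1) := by
  have hmono : Antitone fun k : ℕ =>
      tailK K (n + k + 1) - 3 / 4 * c / (((n + k : ℕ) : ℝ) + 1) := by
    apply antitone_nat_of_succ_le
    intro k
    have hs := tailK_succ K (n + k + 1)
    have hp : (0 : ℝ) < ((n + k : ℕ) : ℝ) := by
      have : 0 < n + k := by omega
      exact_mod_cast this
    have hk := h (n + k + 1) (by omega)
    have e1 : n + (k + 1) + 1 = n + k + 1 + 1 := by ring
    rw [e1, hs]
    have e2 : ((n + (k + 1) : ℕ) : ℝ) = ((n + k : ℕ) : ℝ) + 1 := by push_cast; ring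
    have e3 : ((n + k + 1 : ℕ) : ℝ) = ((n + k : ℕ) : ℝ) + 1 := by push_cast; ring
    rw [e2]
    rw [e3] at hk
    set m : ℝ := ((n + k : ℕ) : ℝ) with hm
    have h1 : 3 / 4 * c / (m + 1) ^ 2 ≤ kk K (n + k + 1) := by
      rw [div_le_iff₀ (by positivity)]
      exact hk
    have h2 : 3 / 4 * c / (m + 1) - 3 / 4 * c / (m + 1 + 1) ≤ 3 / 4 * c / (m + 1) ^ 2 := by
      have e4 : 3 / 4 * c / (m + 1) - 3 / 4 * c / (m + 1 + 1) =
          3 / 4 * c / ((m + 1) * (m + 1 + 1)) := by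
        field_simp
        ring
      rw [e4]
      apply div_le_div_of_nonneg_left (by positivity) (by positivity)
      nlinarith
    linarith
  have hlim : Tendsto (fun k : ℕ => tailK K (n + k + 1) - 3 / 4 * c / (((n + k : ℕ) : ℝ) + 1))
      atTop (𝓝 (0 - 0)) := by
    refine (krb_tail0 K n).sub ?_
    have h2 : Tendsto (fun k : ℕ => n + k + 1) atTop atTop :=
      tendsto_atTop_mono (fun k => by simp only [id_eq]; omega) tendsto_id
    refine ((tendsto_const_div_atTop_nhds_zero_nat (3 / 4 * c)).comp h2).congr fun k => ?_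
    simp only [Function.comp_apply]
    push_cast
    ring
  have h3 := hmono.le_of_tendsto hlim 0
  simp only [add_zero, sub_zero] at h3
  linarith

/-- lower bound for the truncated mean -/
theorem krb_TSlo (K : PMF ℕ) (c : ℝ) (hc : 0 < c) (n0 : ℕ)
    (h : ∀ n, n0 ≤ n → 3 / 4 * c / ((n : ℝ) + 1) ≤ tailK K (n + 1)) (l : ℕ) (hl : n0 ≤ l) :
    3 / 4 * c * (Real.log ((l : ℝ) + 1) - Real.log ((n0 : ℝ) + 1)) ≤ TS K l := by
  induction l, hl using Nat.le_induction with
  | base =>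
    rw [sub_self, mul_zero]
    exact Finset.sum_nonneg fun j _ => tailK_nonneg K _
  | succ l hl ih =>
    have hT : TS K (l + 1) = TS K l + tailK K (l + 1) := by
      unfold TS
      rw [Finset.sum_range_succ]
    rw [hT]
    have h1 := h l hl
    have hlp : (0 : ℝ) < (l : ℝ) + 1 := by positivity
    have h2 : Real.log ((l : ℝ) + 1 + 1) - Real.log ((l : ℝ) + 1) ≤ 1 / ((l : ℝ) + 1) := by
      rw [← Real.log_div (by positivity) (by positivity)]
      have := Real.log_le_sub_one_of_pos (x := ((l : ℝ) + 1 + 1) / ((l : ℝ) + 1))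
        (by positivity)
      have e : ((l : ℝ) + 1 + 1) / ((l : ℝ) + 1) - 1 = 1 / ((l : ℝ) + 1) := by
        field_simp
        ring
      linarith
    have h3 := mul_le_mul_of_nonneg_left h2 (by positivity : (0 : ℝ) ≤ 3 / 4 * c)
    have e5 : 3 / 4 * c * (1 / ((l : ℝ) + 1)) = 3 / 4 * c / ((l : ℝ) + 1) := by ring
    rw [e5] at h3
    push_cast
    nlinarith

/-- upper bound for the truncated mean -/
theorem krb_TSup (K : PMF ℕ) (c : ℝ) (hc : 0 < c) (n0 : ℕ) (hn0 : 2 ≤ n0)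
    (h : ∀ n, n0 ≤ n → tailK K (n + 1) ≤ 5 / 4 * c / n) (l : ℕ) (hl : n0 ≤ l) :
    TS K l ≤ n0 + 5 / 4 * c * Real.log ((l : ℝ) - 1) := by
  induction l, hl using Nat.le_induction with
  | base =>
    have h1 : TS K n0 ≤ n0 := by
      unfold TS
      calc ∑ j ∈ Finset.range n0, tailK K (j + 1) ≤ ∑ j ∈ Finset.range n0, (1 : ℝ) :=
            Finset.sum_le_sum fun j _ => tailK_le_one K _
        _ = n0 := by simp
    have h2 : 0 ≤ Real.log ((n0 : ℝ) - 1) := by
      apply Real.log_nonneg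
      have : (2 : ℝ) ≤ n0 := by exact_mod_cast hn0
      linarith
    have h3 : 0 ≤ 5 / 4 * c * Real.log ((n0 : ℝ) - 1) := by positivity
    linarith
  | succ l hl ih =>
    have hT : TS K (l + 1) = TS K l + tailK K (l + 1) := by
      unfold TS
      rw [Finset.sum_range_succ]
    rw [hT]
    have h1 := h l hl
    have hl2 : (2 : ℝ) ≤ l := by exact_mod_cast (le_trans hn0 hl)
    have h2 : 1 / (l : ℝ) ≤ Real.log (l : ℝ) - Real.log ((l : ℝ) - 1) := by
      rw [← Real.log_div (by linarith) (by linarith)]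
      have := Real.one_sub_inv_le_log_of_pos (x := (l : ℝ) / ((l : ℝ) - 1))
        (div_pos (by linarith) (by linarith))
      have e : 1 - ((l : ℝ) / ((l : ℝ) - 1))⁻¹ = 1 / (l : ℝ) := by
        rw [inv_div]
        field_simp
        ring
      linarith
    have h3 := mul_le_mul_of_nonneg_left h2 (by positivity : (0 : ℝ) ≤ 5 / 4 * c)
    have e5 : 5 / 4 * c * (1 / (l : ℝ)) = 5 / 4 * c / (l : ℝ) := by ring
    rw [e5] at h3
    push_cast
    have e6 : (l : ℝ) + 1 - 1 = l := by ring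
    rw [e6]
    nlinarith

/-- truncated second moment -/
theorem krb_s2 (K : PMF ℕ) (c : ℝ) (hc : 0 < c) (n0 : ℕ)
    (h : ∀ n, n0 ≤ n → kk K n * (n : ℝ) ^ 2 ≤ 5 / 4 * c) (l : ℕ) (hl : n0 ≤ l) :
    ∑ n ∈ Finset.range (l + 1), (n : ℝ) ^ 2 * kk K n ≤ (n0 : ℝ) ^ 2 + 5 / 4 * c * l := by
  induction l, hl using Nat.le_induction with
  | base =>
    have h1 : ∑ n ∈ Finset.range (n0 + 1), (n : ℝ) ^ 2 * kk K n ≤ (n0 : ℝ) ^ 2 := by
      calc ∑ n ∈ Finset.range (n0 + 1), (n : ℝ) ^ 2 * kk K n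
          ≤ ∑ n ∈ Finset.range (n0 + 1), (n0 : ℝ) ^ 2 * kk K n := by
            refine Finset.sum_le_sum fun n hn => ?_
            have : n ≤ n0 := by
              have := Finset.mem_range.mp hn
              omega
            have h' : (n : ℝ) ≤ n0 := by exact_mod_cast this
            exact mul_le_mul_of_nonneg_right (pow_le_pow_left₀ (Nat.cast_nonneg _) h' 2)
              (kk_nonneg K n)
        _ = (n0 : ℝ) ^ 2 * ∑ n ∈ Finset.range (n0 + 1), kk K n := by rw [Finset.mul_sum]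
        _ ≤ (n0 : ℝ) ^ 2 * 1 := by
            apply mul_le_mul_of_nonneg_left _ (by positivity)
            exact sum_le_hasSum _ (fun j _ => kk_nonneg K j) (kk_hasSum K)
        _ = (n0 : ℝ) ^ 2 := mul_one _
    have : 0 ≤ 5 / 4 * c * (n0 : ℝ) := by positivity
    linarith
  | succ l hl ih =>
    rw [Finset.sum_range_succ]
    have h1 := h (l + 1) (by omega)
    push_cast at h1 ⊢
    nlinarith

/-- KRB: `α = 1`. -/
theorem pf_KRB : T_KRB := by
  intro K hK0 c hc hK
  obtain ⟨n0, hn0, hkk⟩ := krb_kk K c hc hK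
  have hup := krb_up K c hc n0 hn0 fun n hn => (hkk n hn).2
  have hlo := krb_lo K c hc n0 hn0 fun n hn => (hkk n hn).1
  have hlog : Tendsto (fun l : ℕ => Real.log (l : ℝ)) atTop atTop :=
    Real.tendsto_log_atTop.comp tendsto_natCast_atTop_atTop
  have hnat : Tendsto (fun l : ℕ => (l : ℝ)) atTop atTop := tendsto_natCast_atTop_atTop
  filter_upwards [eventually_ge_atTop n0, eventually_ge_atTop ((n0 + 2) ^ 2),
    hlog.eventually_ge_atTop (2 ^ 20), hlog.eventually_ge_atTop (n0 / c),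
    hnat.eventually_ge_atTop ((n0 : ℝ) ^ 2 / c)] with l hl1 hl2 hl3 hl4 hl5
  have hL0 : 0 < Real.log (l : ℝ) := lt_of_lt_of_le (by norm_num) hl3
  have hn0' : (2 : ℝ) ≤ n0 := by exact_mod_cast hn0
  have hl2' : ((n0 : ℝ) + 2) ^ 2 ≤ l := by exact_mod_cast hl2
  have hl0 : (0 : ℝ) < l := lt_of_lt_of_le (by positivity) hl2'
  have hln : (n0 : ℝ) ≤ l := by exact_mod_cast hl1
  -- the scale `q`
  have hs : (n0 : ℝ) + 2 ≤ Real.sqrt (1 / Real.log l) * l := by
    have hle : Real.log (l : ℝ) ≤ l := by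
      have := Real.log_le_sub_one_of_pos hl0
      linarith
    have h1 : Real.sqrt (1 / l) ≤ Real.sqrt (1 / Real.log l) := by
      apply Real.sqrt_le_sqrt
      exact one_div_le_one_div_of_le hL0 hle
    have h2 : Real.sqrt (1 / l) * l = Real.sqrt l := by
      rw [Real.sqrt_div zero_le_one, Real.sqrt_one]
      have h3 := Real.mul_self_sqrt hl0.le
      have h4 : 0 < Real.sqrt l := Real.sqrt_pos.mpr hl0
      field_simp
      nlinarith
    have h5 : (n0 : ℝ) + 2 ≤ Real.sqrt l := by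
      rw [Real.le_sqrt (by positivity) hl0.le]
      exact hl2'
    calc (n0 : ℝ) + 2 ≤ Real.sqrt l := h5
      _ = Real.sqrt (1 / l) * l := h2.symm
      _ ≤ Real.sqrt (1 / Real.log l) * l := mul_le_mul_of_nonneg_right h1 hl0.le
  set s : ℝ := Real.sqrt (1 / Real.log l) * l with hsd
  have hs0 : 0 ≤ s := by positivity
  have hfl : s - 1 < (⌊s⌋₊ : ℝ) := Nat.sub_one_lt_floor s
  have hq0 : n0 ≤ ⌊s⌋₊ := by
    apply Nat.le_floor
    linarith
  have hpow : ∀ n : ℕ, ⌊s⌋₊ ≤ n → (n : ℝ) ^ (-(1 + (1 : ℝ))) = ((n : ℝ) ^ 2)⁻¹ := by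
    intro n _
    rw [Real.rpow_neg (Nat.cast_nonneg n), ← Real.rpow_natCast]
    norm_num
  have hnpos : ∀ n : ℕ, ⌊s⌋₊ ≤ n → (0 : ℝ) < (n : ℝ) ^ 2 := by
    intro n hn
    have : 0 < n := by omega
    have h' : (0 : ℝ) < n := by exact_mod_cast this
    positivity
  have e1 : (l : ℝ) ^ (1 - (1 : ℝ)) = 1 := by rw [sub_self, Real.rpow_zero]
  have e2 : (l : ℝ) ^ (2 - (1 : ℝ)) = l := by
    have : (2 - 1 : ℝ) = 1 := by norm_num
    rw [this, Real.rpow_one]
  refine ⟨hK0, by positivity, ?_, ?_, le_refl _, hc, ?_, ?_, ?_, ?_, ?_, ?_, ?_, ?_⟩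
  · exact one_div_le_one_div_of_le (by norm_num) hl3
  · have : 0 ≤ 1 / Real.log (l : ℝ) := by positivity
    linarith
  · omega
  · have e : Real.sqrt (1 / Real.log l) / 2 * l = s / 2 := by rw [hsd]; ring
    rw [e]
    linarith
  · exact Nat.floor_le hs0
  · intro n hn
    rw [hpow n hn, ← div_eq_mul_inv, le_div_iff₀ (hnpos n hn)]
    have := (hkk n (by omega)).2
    linarith
  · intro n hn
    rw [hpow n hn, ← div_eq_mul_inv, div_le_iff₀ (hnpos n hn)]
    have := (hkk n (by omega)).1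
    linarith
  · rw [e2]
    have h1 := krb_s2 K c hc n0 (fun n hn => (hkk n hn).2) l hl1
    have h2 : (n0 : ℝ) ^ 2 ≤ c * l := by
      rw [div_le_iff₀ hc] at hl5
      linarith
    nlinarith [mul_pos hc hl0]
  · rw [e1, mul_one]
    have h1 := krb_TSlo K c hc n0 hlo l hl1
    have h2 : 2 * Real.log ((n0 : ℝ) + 1) ≤ Real.log l := by
      have e : 2 * Real.log ((n0 : ℝ) + 1) = Real.log (((n0 : ℝ) + 1) ^ 2) := by
        rw [Real.log_pow]; norm_num
      rw [e]
      apply Real.log_le_log (by positivity)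
      nlinarith
    have h3 : Real.log (l : ℝ) ≤ Real.log ((l : ℝ) + 1) :=
      Real.log_le_log hl0 (by linarith)
    have h4 : 1 / 4 * Real.log l ≤
        3 / 4 * (Real.log ((l : ℝ) + 1) - Real.log ((n0 : ℝ) + 1)) := by
      linarith
    have h5 : c * Real.log l ≤ 4 * TS K l := by
      have := mul_le_mul_of_nonneg_left h4 hc.le
      nlinarith
    calc c = c * Real.log l / Real.log l := by field_simp
      _ ≤ 4 * TS K l / Real.log l := div_le_div_of_nonneg_right h5 hL0.le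
      _ = 4 * (1 / Real.log l) * TS K l := by ring
  · rw [e1, mul_one]
    have h1 := krb_TSup K c hc n0 hn0 hup l hl1
    have h2 : Real.log ((l : ℝ) - 1) ≤ Real.log l :=
      Real.log_le_log (by nlinarith) (by linarith)
    have h3 : (n0 : ℝ) ≤ c * Real.log l := by
      rw [div_le_iff₀ hc] at hl4
      linarith
    have h4 := mul_le_mul_of_nonneg_left h2 hc.le
    have h5 : TS K l ≤ 4 * c * Real.log l := by nlinarith [mul_pos hc hL0]
    calc 1 / Real.log l * TS K l = TS K l / Real.log l := by ring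
      _ ≤ 4 * c * Real.log l / Real.log l := div_le_div_of_nonneg_right h5 hL0.le
      _ = 4 * c := by field_simp

end Pool.Agent.H57.SLN
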